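import Mathlib

/-! Two involutions have a common bichromatic colouring. -/

set_option autoImplicit false

namespace Pool.Agent.H90.SBO

variable {σ : Type*}

theorem color_free (r s : Equiv.Perm σ) (hr : r * r = 1) (hs : s * s = 1)
    (hr' : ∀ e, r e ≠ e) (hs' : ∀ e, s e ≠ e) :
    ∃ T : Set σ, (∀ e, r e ∈ T ↔ e ∉ T) ∧ (∀ e, s e ∈ T ↔ e ∉ T) := by
  classical
  set p : Equiv.Perm σ := s * r with hp
  have hrinv : r⁻¹ = r := inv_eq_of_mul_eq_one_left hr
  have hsinv : s⁻¹ = s := inv_eq_of_mul_eq_one_left hs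
  have hpinv : p⁻¹ = r * s := by rw [hp, mul_inv_rev, hrinv, hsinv]
  have hconj : ∀ k : ℤ, r * p ^ k = p ^ (-k) * r := by
    intro k
    have h1 : r * p * r⁻¹ = p⁻¹ := by
      rw [hpinv, hp, hrinv]
      calc r * (s * r) * r = r * s * (r * r) := by group
        _ = r * s := by rw [hr, mul_one]
    have h2 : r * p ^ k * r⁻¹ = (p⁻¹) ^ k := by
      rw [← h1]
      simp [conj_zpow]
    calc r * p ^ k = (r * p ^ k * r⁻¹) * r := by group
      _ = (p⁻¹) ^ k * r := by rw [h2]
      _ = p ^ (-k) * r := by rw [inv_zpow, zpow_neg]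
  -- orbit of `e` differs from the orbit of `r e`
  have hne : ∀ e, ¬ p.SameCycle e (r e) := by
    rintro e ⟨k, hk⟩
    rcases Int.even_or_odd' k with ⟨j, rfl | rfl⟩
    · -- r (p^j e) = p^j e
      apply hr' ((p ^ j) e)
      have h1 : (r * p ^ j) e = (p ^ (-j)) (r e) := by rw [hconj]; rfl
      have h2 : (p ^ (-j)) (r e) = (p ^ j) e := by
        rw [← hk, ← Equiv.Perm.mul_apply, ← zpow_add]
        congr 2
        ring
      calc r ((p ^ j) e) = (r * p ^ j) e := rfl
        _ = (p ^ j) e := by rw [h1, h2]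
    · -- r (p^j e) = p (p^j e) = s (r (p^j e))
      have h1 : (r * p ^ j) e = (p ^ (-j)) (r e) := by rw [hconj]; rfl
      have h2 : (p ^ (-j)) (r e) = (p * p ^ j) e := by
        rw [← hk, ← Equiv.Perm.mul_apply, ← zpow_add, ← zpow_one_add]
        congr 2
        ring
      apply hs' (r ((p ^ j) e))
      have h3 : r ((p ^ j) e) = s (r ((p ^ j) e)) := by
        calc r ((p ^ j) e) = (r * p ^ j) e := rfl
          _ = (p * p ^ j) e := by rw [h1, h2]
          _ = s (r ((p ^ j) e)) := rfl
      exact h3.symm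
  -- choose orbits
  let S := Equiv.Perm.SameCycle.setoid p
  letI : LinearOrder (Quotient S) := linearOrderOfSTO WellOrderingRel
  let q : σ → Quotient S := fun e => Quotient.mk S e
  have hq : ∀ e f, q e = q f ↔ p.SameCycle e f := fun e f => Quotient.eq (r := S)
  refine ⟨{e | q e < q (r e)}, ?_, ?_⟩
  · intro e
    have hrr : r (r e) = e := by
      have := congrArg (fun g : Equiv.Perm σ => g e) hr
      simpa using this
    have hneq : q e ≠ q (r e) := fun h => hne e ((hq _ _).1 h)
    simp only [Set.mem_setOf_eq, hrr, not_lt]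
    constructor
    · intro h; exact h.le
    · intro h; exact lt_of_le_of_ne h (Ne.symm hneq)
  · intro e
    have hrr : r (r e) = e := by
      have := congrArg (fun g : Equiv.Perm σ => g e) hr
      simpa using this
    have hneq : q e ≠ q (r e) := fun h => hne e ((hq _ _).1 h)
    have h1 : q (s e) = q (r e) := by
      rw [hq]
      refine Equiv.Perm.SameCycle.symm ⟨1, ?_⟩
      simp [hp, hrr]
    have h2 : q (r (s e)) = q e := by
      rw [hq]
      refine Equiv.Perm.SameCycle.symm ⟨-1, ?_⟩
      rw [zpow_neg_one, hpinv]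
      rfl
    simp only [Set.mem_setOf_eq, h1, h2, not_lt]
    constructor
    · intro h; exact h.le
    · intro h; exact lt_of_le_of_ne h (Ne.symm hneq)

theorem color (r s : σ → σ) (hr : ∀ e, r (r e) = e) (hs : ∀ e, s (s e) = e) :
    ∃ T : Set σ, (∀ e, r e ≠ e → (r e ∈ T ↔ e ∉ T)) ∧ (∀ e, s e ≠ e → (s e ∈ T ↔ e ∉ T)) := by
  classical
  -- doubling
  let D (t : σ → σ) : σ × Bool → σ × Bool := fun x => if t x.1 = x.1 then (x.1, !x.2) else (t x.1, x.2)
  have hD : ∀ t : σ → σ, (∀ e, t (t e) = e) → ∀ x, D t (D t x) = x := by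
    intro t ht x
    rcases x with ⟨e, b⟩
    by_cases h : t e = e
    · simp [D, h]
    · have h' : ¬ t (t e) = t e := by rw [ht]; exact fun h'' => h h''.symm
      simp [D, h, h', ht]
      intro h3; exact absurd h3.symm h
  have hDne : ∀ t : σ → σ, ∀ x, D t x ≠ x := by
    intro t x
    rcases x with ⟨e, b⟩
    by_cases h : t e = e
    · simp [D, h]
    · simp [D, h]
  let R : Equiv.Perm (σ × Bool) := ⟨D r, D r, hD r hr, hD r hr⟩
  let S : Equiv.Perm (σ × Bool) := ⟨D s, D s, hD s hs, hD s hs⟩
  obtain ⟨T, h1, h2⟩ := color_free R S (by ext1 x; exact hD r hr x) (by ext1 x; exact hD s hs x)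
    (fun x => hDne r x) (fun x => hDne s x)
  refine ⟨{e | (e, false) ∈ T}, ?_, ?_⟩
  · intro e he
    have := h1 (e, false)
    have h3 : R (e, false) = (r e, false) := by
      show D r (e, false) = _
      simp [D, he]
    rw [h3] at this
    exact this
  · intro e he
    have := h2 (e, false)
    have h3 : S (e, false) = (s e, false) := by
      show D s (e, false) = _
      simp [D, he]
    rw [h3] at this
    exact this

end Pool.Agent.H90.SBO
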