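import Pool.Agent.H90.SBO.Main

/-! Independent sets of strongly base orderable matroids. -/

set_option autoImplicit false

namespace Pool.Agent.H90.SBO

open Set

/-- the independent sets of a strongly base orderable matroid are strongly exchangeable -/
theorem sbo_indep_SE {σ : Type*} (M : Matroid σ) (hM : StronglyBaseOrderable M) :
    SE {F : Set σ | M.Indep F} := by
  classical
  intro I₁ hI₁ I₂ hI₂
  obtain ⟨A₁, hA₁, hIA₁⟩ := hI₁.exists_isBase_superset
  obtain ⟨A₂, hA₂, hIA₂⟩ := hI₂.exists_isBase_superset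
  obtain ⟨φ, hφ, hX⟩ := hM A₁ A₂ hA₁ hA₂
  have hfix := sbo_fix hA₁ hφ hX
  -- `φ` fixes the common elements
  have hfix2 : ∀ e ∈ A₁, e ∈ A₂ → φ e = e := by
    intro e he he2
    obtain ⟨a, ha, hae⟩ := hφ.surjOn he2
    have h5 : φ a = a := hfix a ha (by rw [hae]; exact he)
    have h6 : a = e := by rw [← h5, hae]
    rw [← h6]; exact h5
  -- partner relation
  let Rel : σ → σ → Prop := fun e f => e ∈ I₁ ∧ e ∉ I₂ ∧ f ∈ I₂ ∧ f ∉ I₁ ∧ φ e = f
  have hRel2 : ∀ e f f', Rel e f → Rel e f' → f = f' := by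
    rintro e f f' ⟨_, _, _, _, h⟩ ⟨_, _, _, _, h'⟩
    exact h.symm.trans h'
  have hRel3 : ∀ e e' f, Rel e f → Rel e' f → e = e' := by
    rintro e e' f ⟨h1, _, _, _, h⟩ ⟨h1', _, _, _, h'⟩
    exact hφ.injOn (hIA₁ h1) (hIA₁ h1') (h.trans h'.symm)
  let r : σ → σ := fun e => if h : ∃ f, Rel e f then h.choose else
    if h' : ∃ f, Rel f e then h'.choose else e
  have hr1 : ∀ e f, Rel e f → r e = f := by
    intro e f h
    have hex : ∃ f, Rel e f := ⟨f, h⟩
    have : r e = hex.choose := by simp only [r, dif_pos hex]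
    rw [this]
    exact hRel2 _ _ _ hex.choose_spec h
  have hr2 : ∀ e f, Rel e f → r f = e := by
    intro e f h
    have hno : ¬ ∃ g, Rel f g := by
      rintro ⟨g, hg⟩
      exact h.2.2.2.1 hg.1
    have hex : ∃ g, Rel g f := ⟨e, h⟩
    have : r f = hex.choose := by simp only [r, dif_neg hno, dif_pos hex]
    rw [this]
    exact hRel3 _ _ _ hex.choose_spec h
  have hr3 : ∀ e, (∃ f, Rel e f) ∨ (∃ f, Rel f e) ∨ r e = e := by
    intro e
    by_cases h : ∃ f, Rel e f
    · exact Or.inl h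
    · by_cases h' : ∃ f, Rel f e
      · exact Or.inr (Or.inl h')
      · right; right; simp only [r, dif_neg h, dif_neg h']
  refine ⟨r, ?_, ?_, ?_, ?_⟩
  · intro e
    rcases hr3 e with ⟨f, hf⟩ | ⟨f, hf⟩ | h
    · rw [hr1 e f hf, hr2 e f hf]
    · rw [hr2 f e hf, hr1 f e hf]
    · rw [h, h]
  · intro e he
    rcases hr3 e with ⟨f, hf⟩ | ⟨f, hf⟩ | h
    · rw [hr1 e f hf]
      exact Or.inr ⟨hf.2.2.1, hf.2.2.2.1⟩
    · rw [hr2 f e hf]
      exact Or.inl ⟨hf.1, hf.2.1⟩
    · rw [h]; exact he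
  · intro e he hne
    rcases hr3 e with ⟨f, hf⟩ | ⟨f, hf⟩ | h
    · rw [hr1 e f hf]
      have h1 := hf.2.2.2.1
      have h2 := hf.1
      tauto
    · rw [hr2 f e hf]
      have h1 := hf.2.2.2.1
      have h2 := hf.1
      tauto
    · exact absurd h hne
  · intro X hXD hXr
    let Y : Set σ := {a | a ∈ A₁ ∧ (a ∈ X ∨ (φ a ∈ X ∧ φ a ∉ I₁))}
    have hY : Y ⊆ A₁ := fun a ha => ha.1
    refine (hX Y hY).indep.subset ?_
    intro e he
    rcases he with ⟨h1, h2⟩ | ⟨h1, h2⟩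
    · -- e ∈ I₁, e ∉ X
      left
      refine ⟨hIA₁ h1, fun h => ?_⟩
      rcases h.2 with h3 | ⟨h3, h4⟩
      · exact h2 h3
      · -- φ e ∈ X \ I₁ so φ e ∈ I₂
        have h5 : φ e ∈ I₂ := by
          rcases hXD h3 with h6 | h6
          · exact absurd h6.1 h4
          · exact h6.1
        by_cases h6 : e ∈ I₂
        · -- then φ e = e
          rw [hfix2 e (hIA₁ h1) (hIA₂ h6)] at h4
          exact h4 h1
        · have hrel : Rel e (φ e) := ⟨h1, h6, h5, h4, rfl⟩
          have := hXr _ h3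
          rw [hr2 e _ hrel] at this
          exact h2 this
    · -- e ∈ X, e ∉ I₁
      right
      have he2 : e ∈ I₂ := by
        rcases hXD h1 with h | h
        · exact absurd h.1 h2
        · exact h.1
      obtain ⟨a, ha, hae⟩ := hφ.surjOn (hIA₂ he2)
      exact ⟨a, ⟨ha, Or.inr ⟨by rw [hae]; exact h1, by rw [hae]; exact h2⟩⟩, hae⟩

end Pool.Agent.H90.SBO
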