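import Pool.Agent.H90.SBO.Wt

/-! Opposite vertices of `conv {1_A - 1_B}` for strongly exchangeable families. -/

set_option autoImplicit false

namespace Pool.Agent.H90.SBO

open Set

variable {σ : Type*}

/-- coordinates in `{-1, 0, 1}` -/
def I3 (x : σ → ℝ) : Prop := ∀ e, x e = -1 ∨ x e = 0 ∨ x e = 1

theorem Same.add {A A' A₁ A₂ : Set σ} (h : Same A A' A₁ A₂) (e : σ) :
    ind A e + ind A' e = ind A₁ e + ind A₂ e := by
  classical
  have h' := h e
  simp only [Set.mem_symmDiff] at h'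
  unfold ind
  by_cases h1 : e ∈ A₁ <;> by_cases h2 : e ∈ A₂ <;> by_cases h3 : e ∈ A <;>
    by_cases h4 : e ∈ A' <;> simp [h1, h2, h3, h4] at h' ⊢

theorem sq_le {A A' A₁ A₂ B B' B₁ B₂ : Set σ} (hA : Same A A' A₁ A₂) (hB : Same B B' B₁ B₂)
    (e : σ) (hAB : e ∈ symmDiff A₁ A₂ → e ∈ symmDiff B₁ B₂ → (e ∈ A ↔ e ∈ B)) :
    val (A, B) e ^ 2 + val (A', B') e ^ 2 ≤ val (A₁, B₁) e ^ 2 + val (A₂, B₂) e ^ 2 ∧
    (((val (A₁, B₁) e = 1 ∧ val (A₂, B₂) e = -1) ∨ (val (A₁, B₁) e = -1 ∧ val (A₂, B₂) e = 1)) →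
      val (A, B) e ^ 2 + val (A', B') e ^ 2 < val (A₁, B₁) e ^ 2 + val (A₂, B₂) e ^ 2) := by
  classical
  have hA' := hA e
  have hB' := hB e
  simp only [Set.mem_symmDiff] at hA' hB' hAB
  unfold val ind
  by_cases h1 : e ∈ A₁ <;> by_cases h2 : e ∈ A₂ <;> by_cases h5 : e ∈ B₁ <;>
    by_cases h6 : e ∈ B₂ <;>
    simp only [h1, h2, h5, h6] at hA' hB' hAB ⊢ <;>
    by_cases h3 : e ∈ A <;> by_cases h4 : e ∈ A' <;>
    simp [h3, h4] at hA' hAB ⊢ <;>
    by_cases h7 : e ∈ B <;> by_cases h8 : e ∈ B' <;> simp [h7, h8] at hB' hAB ⊢ <;> norm_num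

variable [Fintype σ]

open Classical in
theorem min_val {FA FB : Set (Set σ)} (hA : SE FA) (hB : SE FB) {α β x : σ → ℝ}
    (hx : ∀ e, x e = α e - β e) (hi3 : I3 x) (hne : (Wt FA FB α β).Nonempty) :
    ∃ l ∈ Wt FA FB α β, ∀ i, 0 < l i → ∀ e, val i e = x e := by
  have hc : Continuous (pot (σ := σ)) := by
    unfold pot
    fun_prop
  obtain ⟨l, hl, hmin⟩ := (wt_compact FA FB α β).exists_isMinOn hne hc.continuousOn
  refine ⟨l, hl, fun i hi e => ?_⟩
  by_contra hne'
  obtain ⟨hxe, j, hj, hij⟩ := opp hl hx (hi3 e) hi hne'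
  obtain ⟨A, hAm, A', hAm', B, hBm, B', hBm', hS, hS', hAB⟩ :=
    recomb hA hB (wt_mem hl hi).1 (wt_mem hl hj).1 (wt_mem hl hi).2 (wt_mem hl hj).2
  have hijne : i ≠ j := by
    rintro rfl
    rcases hij with ⟨h1, h2⟩ | ⟨h1, h2⟩ <;> rw [h1] at h2 <;> norm_num at h2
  set t : ℝ := min (l i) (l j) with ht
  have ht0 : 0 < t := lt_min hi hj
  have hti : t ≤ l i := min_le_left _ _
  have htj : t ≤ l j := min_le_right _ _
  let l' : Set σ × Set σ → ℝ := fun k => l k + t * ((if k = (A, B) then 1 else 0) +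
    (if k = (A', B') then 1 else 0) - (if k = i then 1 else 0) - (if k = j then 1 else 0))
  have hsum : ∀ f : Set σ × Set σ → ℝ, ∑ k, l' k * f k =
      ∑ k, l k * f k + t * (f (A, B) + f (A', B') - f i - f j) := by
    intro f
    have h1 : ∀ k, l' k * f k = l k * f k + t * ((if k = (A, B) then f k else 0) +
        (if k = (A', B') then f k else 0) - (if k = i then f k else 0)
        - (if k = j then f k else 0)) := by
      intro k
      simp only [l']
      split_ifs <;> ring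
    rw [Finset.sum_congr rfl (fun k _ => h1 k), Finset.sum_add_distrib, ← Finset.mul_sum,
      Finset.sum_sub_distrib, Finset.sum_sub_distrib, Finset.sum_add_distrib]
    simp
  have hl' : l' ∈ Wt FA FB α β := by
    refine ⟨?_, ?_, ?_, ?_, ?_⟩
    · intro k
      have hk := hl.1 k
      have h1 : (0 : ℝ) ≤ (if k = (A, B) then 1 else 0) := by split_ifs <;> norm_num
      have h2 : (0 : ℝ) ≤ (if k = (A', B') then 1 else 0) := by split_ifs <;> norm_num
      have h3 : 0 ≤ l k + t * (0 + 0 - (if k = i then 1 else 0) - (if k = j then 1 else 0)) := by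
        by_cases hki : k = i
        · have hkj : k ≠ j := fun h => hijne (hki.symm.trans h)
          rw [if_pos hki, if_neg hkj, hki]
          linarith
        · by_cases hkj : k = j
          · rw [if_neg hki, if_pos hkj, hkj]
            linarith
          · rw [if_neg hki, if_neg hkj]
            linarith
      refine h3.trans ?_
      show _ ≤ l k + t * _
      gcongr
    · intro k hk
      have h1 : k ≠ (A, B) := by rintro rfl; exact hk ⟨hAm, hBm⟩
      have h2 : k ≠ (A', B') := by rintro rfl; exact hk ⟨hAm', hBm'⟩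
      have h3 : k ≠ i := by rintro rfl; exact hk (wt_mem hl hi)
      have h4 : k ≠ j := by rintro rfl; exact hk (wt_mem hl hj)
      simp only [l', if_neg h1, if_neg h2, if_neg h3, if_neg h4, hl.2.1 k hk]
      ring
    · have h := hsum (fun _ => 1)
      simp only [mul_one] at h
      rw [h, hl.2.2.1]
      ring
    · intro e'
      rw [hsum (fun k => ind k.1 e'), hl.2.2.2.1 e']
      have := hS.add e'
      simp only
      rw [this]
      ring
    · intro e'
      rw [hsum (fun k => ind k.2 e'), hl.2.2.2.2 e']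
      have := hS'.add e'
      simp only
      rw [this]
      ring
  have hpot : pot l' < pot l := by
    unfold pot
    rw [hsum (fun k => ∑ e, (val k e) ^ 2)]
    have h1 : ∑ e, (val (A, B) e ^ 2 + val (A', B') e ^ 2) <
        ∑ e, (val i e ^ 2 + val j e ^ 2) := by
      apply Finset.sum_lt_sum
      · intro e' _
        exact (sq_le hS hS' e' (hAB e')).1
      · exact ⟨e, Finset.mem_univ e, (sq_le hS hS' e (hAB e)).2 hij⟩
    rw [Finset.sum_add_distrib, Finset.sum_add_distrib] at h1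
    have h2 : t * (∑ e, val (A, B) e ^ 2 + ∑ e, val (A', B') e ^ 2 - ∑ e, val i e ^ 2
        - ∑ e, val j e ^ 2) < 0 := by
      apply mul_neg_of_pos_of_neg ht0
      linarith
    linarith
  exact absurd (hmin hl') (not_le.2 hpot)

open Classical in
theorem exists_pos {FA FB : Set (Set σ)} {α β : σ → ℝ} {l : Set σ × Set σ → ℝ}
    (hl : l ∈ Wt FA FB α β) : ∃ i, 0 < l i := by
  by_contra h
  have h0 : ∀ i, l i = 0 := fun i => le_antisymm (not_lt.1 fun hi => h ⟨i, hi⟩) (hl.1 i)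
  have h1 := hl.2.2.1
  simp [h0] at h1

/-- an integer point is the difference of two members -/
theorem rep {FA FB : Set (Set σ)} (hA : SE FA) (hB : SE FB) {x : σ → ℝ} (hi3 : I3 x)
    (hx : x ∈ convexHull ℝ (Pts FA FB)) :
    ∃ A ∈ FA, ∃ B ∈ FB, ∀ e, x e = ind A e - ind B e := by
  classical
  obtain ⟨α, β, hxe, hne⟩ := exists_wt hx
  obtain ⟨l, hl, h⟩ := min_val hA hB hxe hi3 hne
  obtain ⟨i, hi⟩ := exists_pos hl
  exact ⟨i.1, (wt_mem hl hi).1, i.2, (wt_mem hl hi).2, fun e => (h i hi e).symm⟩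

theorem val_one {i : Set σ × Set σ} {e : σ} (h : val i e = 1) : e ∈ i.1 := by
  classical
  by_contra h1
  unfold val ind at h
  rw [if_neg h1] at h
  split_ifs at h <;> norm_num at h

theorem val_neg_one {i : Set σ × Set σ} {e : σ} (h : val i e = -1) : e ∉ i.1 := by
  classical
  intro h1
  unfold val ind at h
  rw [if_pos h1] at h
  split_ifs at h <;> norm_num at h

theorem ind_one {A : Set σ} {e : σ} (h : e ∈ A) : ind A e = 1 := by
  classical
  unfold ind
  rw [if_pos h]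

theorem ind_zero {A : Set σ} {e : σ} (h : e ∉ A) : ind A e = 0 := by
  classical
  unfold ind
  rw [if_neg h]

/-- an integer point that is not extreme has two different representations -/
theorem two_rep {FA FB : Set (Set σ)} (hA : SE FA) (hB : SE FB) {x : σ → ℝ} (hi3 : I3 x)
    (hx : x ∈ convexHull ℝ (Pts FA FB))
    (hex : x ∉ Set.extremePoints ℝ (convexHull ℝ (Pts FA FB))) :
    ∃ e, x e = 0 ∧ (∃ A ∈ FA, ∃ B ∈ FB, (∀ e, x e = ind A e - ind B e) ∧ e ∈ A) ∧
      (∃ A ∈ FA, ∃ B ∈ FB, (∀ e, x e = ind A e - ind B e) ∧ e ∉ A) := by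
  classical
  rw [mem_extremePoints_iff_left] at hex
  push Not at hex
  obtain ⟨y, hy, z, hz, hyz, hne⟩ := hex hx
  obtain ⟨a, b, ha, hb, hab, hxyz⟩ := hyz
  obtain ⟨α, β, hye, l, hl⟩ := exists_wt hy
  obtain ⟨α', β', hze, l', hl'⟩ := exists_wt hz
  set m : Set σ × Set σ → ℝ := fun i => a * l i + b * l' i with hm
  have hmW : m ∈ Wt FA FB (fun e => a * α e + b * α' e) (fun e => a * β e + b * β' e) := by
    refine ⟨?_, ?_, ?_, ?_, ?_⟩
    · intro i
      have := hl.1 i
      have := hl'.1 i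
      positivity
    · intro i hi
      simp [hm, hl.2.1 i hi, hl'.2.1 i hi]
    · simp only [hm]
      rw [Finset.sum_add_distrib, ← Finset.mul_sum, ← Finset.mul_sum, hl.2.2.1, hl'.2.2.1]
      linarith
    · intro e
      simp only [hm, add_mul, mul_assoc]
      rw [Finset.sum_add_distrib, ← Finset.mul_sum, ← Finset.mul_sum, hl.2.2.2.1, hl'.2.2.2.1]
    · intro e
      simp only [hm, add_mul, mul_assoc]
      rw [Finset.sum_add_distrib, ← Finset.mul_sum, ← Finset.mul_sum, hl.2.2.2.2, hl'.2.2.2.2]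
  have hxe : ∀ e, x e = (a * α e + b * α' e) - (a * β e + b * β' e) := by
    intro e
    rw [← hxyz]
    simp only [Pi.add_apply, Pi.smul_apply, smul_eq_mul, hye, hze]
    ring
  obtain ⟨e, he⟩ : ∃ e, y e ≠ x e := by
    by_contra h
    push Not at h
    exact hne (funext h)
  obtain ⟨i, hi, hie⟩ : ∃ i, 0 < l i ∧ val i e ≠ x e := by
    by_contra h
    push Not at h
    apply he
    have h1 := sum_val hl e
    rw [← hye] at h1
    rw [← h1]
    have h2 : ∀ i, l i * val i e = l i * x e := by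
      intro i
      rcases (hl.1 i).lt_or_eq with hi | hi
      · rw [h i hi]
      · rw [← hi]; simp
    rw [Finset.sum_congr rfl (fun i _ => h2 i), ← Finset.sum_mul, hl.2.2.1, one_mul]
  have hmi : 0 < m i := by
    have := hl'.1 i
    simp only [hm]
    positivity
  obtain ⟨hxe0, j, hj, hij⟩ := opp hmW hxe (hi3 e) hmi hie
  -- two indices with `e` in the first set, resp. not
  obtain ⟨p, q, hp, hq, hpe, hqe⟩ : ∃ p q, 0 < m p ∧ 0 < m q ∧ e ∈ p.1 ∧ e ∉ q.1 := by
    rcases hij with ⟨h1, h2⟩ | ⟨h1, h2⟩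
    · exact ⟨i, j, hmi, hj, val_one h1, val_neg_one h2⟩
    · exact ⟨j, i, hj, hmi, val_one h2, val_neg_one h1⟩
  have hind0 : ∀ (A : Set σ) (e : σ), 0 ≤ ind A e ∧ ind A e ≤ 1 := by
    intro A e
    unfold ind
    split_ifs <;> norm_num
  have hme : ∑ k, m k * ind k.1 e = a * α e + b * α' e := hmW.2.2.2.1 e
  have hα0 : 0 < a * α e + b * α' e := by
    rw [← hme]
    apply Finset.sum_pos'
    · intro k _
      exact mul_nonneg (hmW.1 k) (hind0 _ _).1
    · refine ⟨p, Finset.mem_univ p, ?_⟩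
      rw [ind_one hpe, mul_one]
      exact hp
  have hα1 : a * α e + b * α' e < 1 := by
    rw [← hme, ← hmW.2.2.1]
    apply Finset.sum_lt_sum
    · intro k _
      exact mul_le_of_le_one_right (hmW.1 k) (hind0 _ _).2
    · refine ⟨q, Finset.mem_univ q, ?_⟩
      rw [ind_zero hqe, mul_zero]
      exact hq
  obtain ⟨n, hn, hnv⟩ := min_val hA hB hxe hi3 ⟨m, hmW⟩
  refine ⟨e, hxe0, ?_, ?_⟩
  · obtain ⟨k, hk, hke⟩ : ∃ k, 0 < n k ∧ e ∈ k.1 := by
      by_contra h
      push Not at h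
      have h1 := hn.2.2.2.1 e
      have h2 : ∀ k, n k * ind k.1 e = 0 := by
        intro k
        rcases (hn.1 k).lt_or_eq with hk | hk
        · rw [ind_zero (h k hk), mul_zero]
        · rw [← hk, zero_mul]
      rw [Finset.sum_congr rfl (fun k _ => h2 k)] at h1
      simp only [Finset.sum_const_zero] at h1
      linarith
    exact ⟨k.1, (wt_mem hn hk).1, k.2, (wt_mem hn hk).2, fun e => (hnv k hk e).symm, hke⟩
  · obtain ⟨k, hk, hke⟩ : ∃ k, 0 < n k ∧ e ∉ k.1 := by
      by_contra h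
      push Not at h
      have h1 := hn.2.2.2.1 e
      have h2 : ∀ k, n k * ind k.1 e = n k := by
        intro k
        rcases (hn.1 k).lt_or_eq with hk | hk
        · rw [ind_one (h k hk), mul_one]
        · rw [← hk, zero_mul]
      rw [Finset.sum_congr rfl (fun k _ => h2 k), hn.2.2.1] at h1
      linarith
    exact ⟨k.1, (wt_mem hn hk).1, k.2, (wt_mem hn hk).2, fun e => (hnv k hk e).symm, hke⟩

/-- a non extreme integer point of `Q ∩ -Q` has not maximum support -/
theorem enlarge {FA FB : Set (Set σ)} (hA : SE FA) (hB : SE FB) {v : σ → ℝ} (hi3 : I3 v)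
    (hv : v ∈ convexHull ℝ (Pts FA FB)) (hv' : -v ∈ convexHull ℝ (Pts FA FB))
    (hex : v ∉ Set.extremePoints ℝ (convexHull ℝ (Pts FA FB))) :
    ∃ w : σ → ℝ, I3 w ∧ w ∈ convexHull ℝ (Pts FA FB) ∧ -w ∈ convexHull ℝ (Pts FA FB) ∧
      Function.support v ⊂ Function.support w := by
  classical
  have hi3' : I3 (-v) := by
    intro e
    rcases hi3 e with h | h | h <;> simp [h]
  obtain ⟨C, hC, D, hD, hCD⟩ := rep hA hB hi3' hv'
  obtain ⟨e, hve, ⟨A₁, hA₁, B₁, hB₁, h1, he1⟩, ⟨A₂, hA₂, B₂, hB₂, h2, he2⟩⟩ :=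
    two_rep hA hB hi3 hv hex
  obtain ⟨A, hAm, B, hBm, hAB, heA⟩ : ∃ A ∈ FA, ∃ B ∈ FB, (∀ e, v e = ind A e - ind B e) ∧
      (e ∈ A ↔ e ∉ C) := by
    by_cases hc : e ∈ C
    · exact ⟨A₂, hA₂, B₂, hB₂, h2, by tauto⟩
    · exact ⟨A₁, hA₁, B₁, hB₁, h1, by tauto⟩
  obtain ⟨P, hP, P', hP', R, hR, R', hR', hS, hS', hPR⟩ := recomb hA hB hAm hC hD hBm
  have hsum : ∀ e, ind A e + ind C e = ind B e + ind D e := by
    intro e
    have h3 := hAB e
    have h4 := hCD e
    simp only [Pi.neg_apply] at h4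
    linarith
  -- values of `w`
  have hw : ∀ e, (e ∈ symmDiff A C → (ind P e - ind R' e = 1 ∨ ind P e - ind R' e = -1)) ∧
      (e ∉ symmDiff A C → ind P e - ind R' e = 0) ∧
      (ind P' e - ind R e = -(ind P e - ind R' e)) ∧ (e ∉ symmDiff A C → ind A e - ind B e = 0) := by
    intro e
    have h3 := hsum e
    have h4 := hS e
    have h5 := hS' e
    have h6 := hPR e
    simp only [Set.mem_symmDiff] at h4 h5 h6 ⊢
    unfold ind at h3 ⊢
    by_cases a1 : e ∈ A <;> by_cases a2 : e ∈ C <;> by_cases a3 : e ∈ B <;> by_cases a4 : e ∈ D <;>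
      simp only [a1, a2, a3, a4] at h3 h4 h5 h6 ⊢ <;> norm_num at h3 <;>
      by_cases a5 : e ∈ P <;> by_cases a6 : e ∈ P' <;> simp [a5, a6] at h4 h6 ⊢ <;>
      by_cases a7 : e ∈ R <;> by_cases a8 : e ∈ R' <;> simp [a7, a8] at h5 h6 ⊢
  refine ⟨fun e => ind P e - ind R' e, ?_, ?_, ?_, ?_⟩
  · intro e
    by_cases he : e ∈ symmDiff A C
    · rcases (hw e).1 he with h | h <;> simp [h]
    · simp [(hw e).2.1 he]
  · apply subset_convexHull
    exact ⟨P, hP, R', hR', fun e => rfl⟩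
  · apply subset_convexHull
    exact ⟨P', hP', R, hR, fun e => ((hw e).2.2.1).symm⟩
  · rw [Set.ssubset_iff_of_subset]
    · refine ⟨e, ?_, ?_⟩
      · rw [Function.mem_support]
        have he : e ∈ symmDiff A C := by
          rw [Set.mem_symmDiff]; tauto
        rcases (hw e).1 he with h | h <;> simp [h]
      · rw [Function.mem_support, not_not]
        exact hve
    · intro f hf
      rw [Function.mem_support] at hf ⊢
      by_cases he : f ∈ symmDiff A C
      · rcases (hw f).1 he with h | h <;> simp [h]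
      · exact absurd ((hAB f).trans ((hw f).2.2.2 he)) hf

/-- main theorem for families -/
theorem main_families {FA FB : Set (Set σ)} (hA : SE FA) (hB : SE FB)
    (h0 : (0 : σ → ℝ) ∈ convexHull ℝ (Pts FA FB)) :
    (∀ v : σ → ℝ, I3 v → v ∈ convexHull ℝ (Pts FA FB) → -v ∈ convexHull ℝ (Pts FA FB) →
      (∀ w : σ → ℝ, I3 w → w ∈ convexHull ℝ (Pts FA FB) → -w ∈ convexHull ℝ (Pts FA FB) →
        (Function.support w).ncard ≤ (Function.support v).ncard) →
      v ∈ Set.extremePoints ℝ (convexHull ℝ (Pts FA FB)) ∧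
      -v ∈ Set.extremePoints ℝ (convexHull ℝ (Pts FA FB))) ∧
    ∃ v : σ → ℝ, I3 v ∧ v ∈ Set.extremePoints ℝ (convexHull ℝ (Pts FA FB)) ∧
      -v ∈ Set.extremePoints ℝ (convexHull ℝ (Pts FA FB)) := by
  classical
  have hmax : ∀ v : σ → ℝ, I3 v → v ∈ convexHull ℝ (Pts FA FB) →
      -v ∈ convexHull ℝ (Pts FA FB) →
      (∀ w : σ → ℝ, I3 w → w ∈ convexHull ℝ (Pts FA FB) → -w ∈ convexHull ℝ (Pts FA FB) →
        (Function.support w).ncard ≤ (Function.support v).ncard) →
      v ∈ Set.extremePoints ℝ (convexHull ℝ (Pts FA FB)) := by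
    intro v h1 h2 h3 h4
    by_contra h
    obtain ⟨w, hw1, hw2, hw3, hw4⟩ := enlarge hA hB h1 h2 h3 h
    exact absurd (h4 w hw1 hw2 hw3) (not_le.2 (Set.ncard_lt_ncard hw4 (Set.toFinite _)))
  have hboth : ∀ v : σ → ℝ, I3 v → v ∈ convexHull ℝ (Pts FA FB) →
      -v ∈ convexHull ℝ (Pts FA FB) →
      (∀ w : σ → ℝ, I3 w → w ∈ convexHull ℝ (Pts FA FB) → -w ∈ convexHull ℝ (Pts FA FB) →
        (Function.support w).ncard ≤ (Function.support v).ncard) →
      v ∈ Set.extremePoints ℝ (convexHull ℝ (Pts FA FB)) ∧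
      -v ∈ Set.extremePoints ℝ (convexHull ℝ (Pts FA FB)) := by
    intro v h1 h2 h3 h4
    refine ⟨hmax v h1 h2 h3 h4, hmax (-v) ?_ h3 (by rwa [neg_neg]) ?_⟩
    · intro e
      rcases h1 e with h | h | h <;> simp [h]
    · intro w hw1 hw2 hw3
      rw [Function.support_neg]
      exact h4 w hw1 hw2 hw3
  refine ⟨hboth, ?_⟩
  let S : Set ℕ := {n | ∃ v : σ → ℝ, I3 v ∧ v ∈ convexHull ℝ (Pts FA FB) ∧
    -v ∈ convexHull ℝ (Pts FA FB) ∧ (Function.support v).ncard = n}
  have hSne : S.Nonempty := ⟨_, 0, fun e => by simp, h0, by simpa using h0, rfl⟩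
  have hSb : BddAbove S := by
    refine ⟨(Set.univ : Set σ).ncard, ?_⟩
    rintro n ⟨v, _, _, _, rfl⟩
    exact Set.ncard_le_ncard (Set.subset_univ _) (Set.toFinite _)
  obtain ⟨v, hv1, hv2, hv3, hv4⟩ := Nat.sSup_mem hSne hSb
  refine ⟨v, hv1, hboth v hv1 hv2 hv3 ?_⟩
  intro w hw1 hw2 hw3
  rw [hv4]
  exact le_csSup hSb ⟨w, hw1, hw2, hw3, rfl⟩

end Pool.Agent.H90.SBO
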