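import Pool.Agent.H90.SBO.Color

/-! Recombination of two pairs of members of strongly exchangeable families. -/

set_option autoImplicit false

namespace Pool.Agent.H90.SBO

open Set

variable {σ : Type*}

/-- strongly exchangeable family: for two members there is an involution of their symmetric
difference, each moved element of one difference set goes to the other one, and the changes of the
first member along invariant sets stay in the family -/
def SE (F : Set (Set σ)) : Prop :=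
  ∀ F₁ ∈ F, ∀ F₂ ∈ F, ∃ r : σ → σ, (∀ e, r (r e) = e) ∧
    (∀ e ∈ symmDiff F₁ F₂, r e ∈ symmDiff F₁ F₂) ∧
    (∀ e ∈ symmDiff F₁ F₂, r e ≠ e → (r e ∈ F₁ ↔ e ∉ F₁)) ∧
    ∀ X ⊆ symmDiff F₁ F₂, (∀ e ∈ X, r e ∈ X) → symmDiff F₁ X ∈ F

/-- `A, A'` have together the same elements as `A₁, A₂` -/
def Same (A A' A₁ A₂ : Set σ) : Prop :=
  ∀ e, ((e ∉ symmDiff A₁ A₂) → ((e ∈ A ↔ e ∈ A₁) ∧ (e ∈ A' ↔ e ∈ A₁))) ∧
    ((e ∈ symmDiff A₁ A₂) → (e ∈ A ↔ e ∉ A'))

theorem SE.split {F : Set (Set σ)} (hF : SE F) {A₁ A₂ : Set σ} (h1 : A₁ ∈ F) (h2 : A₂ ∈ F) :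
    ∃ r : σ → σ, (∀ e, r (r e) = e) ∧ ∀ T : Set σ, (∀ e, r e ≠ e → (r e ∈ T ↔ e ∉ T)) →
      ∃ A ∈ F, ∃ A' ∈ F, Same A A' A₁ A₂ ∧ ∀ e ∈ symmDiff A₁ A₂, (e ∈ A ↔ e ∈ T) := by
  classical
  obtain ⟨r, hr, hmap, hbi, hex⟩ := hF A₁ h1 A₂ h2
  refine ⟨r, hr, fun T hT => ?_⟩
  set D := symmDiff A₁ A₂ with hD
  let X : Set σ := {e | e ∈ D ∧ ¬ (e ∈ A₁ ↔ e ∈ T)}
  let X' : Set σ := {e | e ∈ D ∧ (e ∈ A₁ ↔ e ∈ T)}
  have hXD : X ⊆ D := fun e he => he.1
  have hXD' : X' ⊆ D := fun e he => he.1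
  have key : ∀ e ∈ D, ((r e ∈ A₁ ↔ r e ∈ T) ↔ (e ∈ A₁ ↔ e ∈ T)) := by
    intro e he
    by_cases h : r e = e
    · rw [h]
    · have ha := hbi e he h
      have hb := hT e h
      rw [ha, hb]
      tauto
  have hX : ∀ e ∈ X, r e ∈ X := by
    intro e he
    exact ⟨hmap e he.1, fun h => he.2 ((key e he.1).1 h)⟩
  have hX' : ∀ e ∈ X', r e ∈ X' := by
    intro e he
    exact ⟨hmap e he.1, (key e he.1).2 he.2⟩
  refine ⟨symmDiff A₁ X, hex X hXD hX, symmDiff A₁ X', hex X' hXD' hX', ?_, ?_⟩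
  · intro e
    constructor
    · intro he
      have hx : e ∉ X := fun h => he (hXD h)
      have hx' : e ∉ X' := fun h => he (hXD' h)
      simp only [Set.mem_symmDiff]
      tauto
    · intro he
      have hx : e ∈ X ↔ ¬ (e ∈ A₁ ↔ e ∈ T) := ⟨fun h => h.2, fun h => ⟨he, h⟩⟩
      have hx' : e ∈ X' ↔ (e ∈ A₁ ↔ e ∈ T) := ⟨fun h => h.2, fun h => ⟨he, h⟩⟩
      simp only [Set.mem_symmDiff, hx, hx']
      tauto
  · intro e he
    have hx : e ∈ X ↔ ¬ (e ∈ A₁ ↔ e ∈ T) := ⟨fun h => h.2, fun h => ⟨he, h⟩⟩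
    simp only [Set.mem_symmDiff, hx]
    tauto

/-- recombination -/
theorem recomb {FA FB : Set (Set σ)} (hA : SE FA) (hB : SE FB) {A₁ A₂ B₁ B₂ : Set σ}
    (hA₁ : A₁ ∈ FA) (hA₂ : A₂ ∈ FA) (hB₁ : B₁ ∈ FB) (hB₂ : B₂ ∈ FB) :
    ∃ A ∈ FA, ∃ A' ∈ FA, ∃ B ∈ FB, ∃ B' ∈ FB, Same A A' A₁ A₂ ∧ Same B B' B₁ B₂ ∧
      ∀ e, e ∈ symmDiff A₁ A₂ → e ∈ symmDiff B₁ B₂ → (e ∈ A ↔ e ∈ B) := by
  obtain ⟨r, hr, h1⟩ := hA.split hA₁ hA₂
  obtain ⟨s, hs, h2⟩ := hB.split hB₁ hB₂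
  obtain ⟨T, hT1, hT2⟩ := color r s hr hs
  obtain ⟨A, hAm, A', hAm', hS, hAT⟩ := h1 T hT1
  obtain ⟨B, hBm, B', hBm', hS', hBT⟩ := h2 T hT2
  exact ⟨A, hAm, A', hAm', B, hBm, B', hBm', hS, hS', fun e he he' =>
    (hAT e he).trans (hBT e he').symm⟩

theorem SE.compl {F : Set (Set σ)} (hF : SE F) : SE {A | Aᶜ ∈ F} := by
  intro F₁ h1 F₂ h2
  obtain ⟨r, hr, hmap, hbi, hex⟩ := hF F₁ᶜ h1 F₂ᶜ h2
  have hD : symmDiff F₁ᶜ F₂ᶜ = symmDiff F₁ F₂ := by
    ext e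
    simp only [Set.mem_symmDiff, Set.mem_compl_iff]
    tauto
  rw [hD] at hmap hbi hex
  refine ⟨r, hr, hmap, ?_, ?_⟩
  · intro e he h
    have := hbi e he h
    simp only [Set.mem_compl_iff] at this
    tauto
  · intro X hX hX'
    have := hex X hX hX'
    have h3 : symmDiff F₁ᶜ X = (symmDiff F₁ X)ᶜ := by
      ext e
      simp only [Set.mem_symmDiff, Set.mem_compl_iff]
      tauto
    rw [h3] at this
    exact this

/-- strongly base orderable matroid -/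
def StronglyBaseOrderable {α : Type*} (M : Matroid α) : Prop :=
  ∀ B₁ B₂, M.IsBase B₁ → M.IsBase B₂ → ∃ φ : α → α, BijOn φ B₁ B₂ ∧
    ∀ X ⊆ B₁, M.IsBase ((B₁ \ X) ∪ φ '' X)

theorem sbo_fix {α : Type*} {M : Matroid α} {B₁ B₂ : Set α} (h1 : M.IsBase B₁)
    {φ : α → α} (_hφ : BijOn φ B₁ B₂) (hX : ∀ X ⊆ B₁, M.IsBase ((B₁ \ X) ∪ φ '' X)) :
    ∀ e ∈ B₁, φ e ∈ B₁ → φ e = e := by
  intro e he hfe
  by_contra hne
  -- the base (B₁ \ {e}) ∪ {φ e} = B₁ \ {e} is strictly smaller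
  have h := hX {e} (by simpa using he)
  have h3 : (B₁ \ {e}) ∪ φ '' {e} = B₁ \ {e} := by
    rw [image_singleton]
    apply union_eq_self_of_subset_right
    rw [singleton_subset_iff]
    exact ⟨hfe, by simpa using hne⟩
  rw [h3] at h
  have h4 := h.eq_of_subset_isBase h1 sdiff_subset
  have : e ∈ B₁ \ {e} := by rw [h4]; exact he
  exact this.2 rfl

/-- the traces of the bases of a strongly base orderable matroid on a part of the ground set -/
theorem sbo_SE {σ τ : Type*} (M : Matroid (σ ⊕ τ)) (hM : StronglyBaseOrderable M) :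
    SE {F : Set σ | ∃ A, M.IsBase A ∧ F = Sum.inl ⁻¹' A} := by
  classical
  rintro F₁ ⟨A₁, hA₁, rfl⟩ F₂ ⟨A₂, hA₂, rfl⟩
  obtain ⟨φ, hφ, hX⟩ := hM A₁ A₂ hA₁ hA₂
  have hfix := sbo_fix hA₁ hφ hX
  -- partner relation
  let Rel : σ → σ → Prop := fun e f => Sum.inl e ∈ A₁ ∧ Sum.inl e ∉ A₂ ∧ φ (Sum.inl e) = Sum.inl f
  have hRel1 : ∀ e f, Rel e f → (Sum.inl f ∈ A₂ ∧ (Sum.inl f : σ ⊕ τ) ∉ A₁) := by
    rintro e f ⟨he, he2, hef⟩
    have h2 : φ (Sum.inl e) ∈ A₂ := hφ.mapsTo he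
    refine ⟨hef ▸ h2, fun h => ?_⟩
    rw [← hef] at h
    have h3 := hfix _ he h
    rw [h3] at h2
    exact he2 h2
  have hRel2 : ∀ e f f', Rel e f → Rel e f' → f = f' := by
    rintro e f f' ⟨_, _, h⟩ ⟨_, _, h'⟩
    exact Sum.inl_injective (h.symm.trans h')
  have hRel3 : ∀ e e' f, Rel e f → Rel e' f → e = e' := by
    rintro e e' f ⟨h1, _, h⟩ ⟨h1', _, h'⟩
    exact Sum.inl_injective (hφ.injOn h1 h1' (h.trans h'.symm))
  let r : σ → σ := fun e => if h : ∃ f, Rel e f then h.choose else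
    if h' : ∃ f, Rel f e then h'.choose else e
  have hr1 : ∀ e f, Rel e f → r e = f := by
    intro e f h
    have hex : ∃ f, Rel e f := ⟨f, h⟩
    have : r e = hex.choose := by simp only [r, dif_pos hex]
    rw [this]
    exact hRel2 _ _ _ hex.choose_spec h
  have hr2 : ∀ e f, Rel e f → r f = e := by
    intro e f h
    have hno : ¬ ∃ g, Rel f g := by
      rintro ⟨g, hg⟩
      exact (hRel1 e f h).2 hg.1
    have hex : ∃ g, Rel g f := ⟨e, h⟩
    have : r f = hex.choose := by simp only [r, dif_neg hno, dif_pos hex]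
    rw [this]
    exact hRel3 _ _ _ hex.choose_spec h
  have hr3 : ∀ e, (∃ f, Rel e f) ∨ (∃ f, Rel f e) ∨ r e = e := by
    intro e
    by_cases h : ∃ f, Rel e f
    · exact Or.inl h
    · by_cases h' : ∃ f, Rel f e
      · exact Or.inr (Or.inl h')
      · right; right; simp only [r, dif_neg h, dif_neg h']
  refine ⟨r, ?_, ?_, ?_, ?_⟩
  · intro e
    rcases hr3 e with ⟨f, hf⟩ | ⟨f, hf⟩ | h
    · rw [hr1 e f hf, hr2 e f hf]
    · rw [hr2 f e hf, hr1 f e hf]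
    · rw [h, h]
  · intro e he
    rcases hr3 e with ⟨f, hf⟩ | ⟨f, hf⟩ | h
    · rw [hr1 e f hf]
      exact Or.inr ⟨(hRel1 e f hf).1, (hRel1 e f hf).2⟩
    · rw [hr2 f e hf]
      exact Or.inl ⟨hf.1, hf.2.1⟩
    · rw [h]; exact he
  · intro e he hne
    rcases hr3 e with ⟨f, hf⟩ | ⟨f, hf⟩ | h
    · rw [hr1 e f hf]
      have h1 := (hRel1 e f hf).2
      have h2 := hf.1
      simp only [mem_preimage]
      tauto
    · rw [hr2 f e hf]
      have h1 := (hRel1 f e hf).2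
      have h2 := hf.1
      simp only [mem_preimage]
      tauto
    · exact absurd h hne
  · intro X hXD hXr
    -- the set of changed elements of `A₁`
    let Y : Set (σ ⊕ τ) := {a | a ∈ A₁ ∧ ((∃ e ∈ X, Sum.inl e = a) ∨ ∃ f ∈ X, φ a = Sum.inl f ∧ a ∉ A₂)}
    have hY : Y ⊆ A₁ := fun a ha => ha.1
    refine ⟨(A₁ \ Y) ∪ φ '' Y, hX Y hY, ?_⟩
    ext e
    simp only [Set.mem_symmDiff, mem_preimage]
    have hYe : (Sum.inl e : σ ⊕ τ) ∈ A₁ → ((Sum.inl e : σ ⊕ τ) ∈ Y ↔ e ∈ X) := by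
      intro heA
      constructor
      · rintro ⟨_, ⟨e', he', h⟩ | ⟨f, hf, h, hn⟩⟩
        · rwa [← Sum.inl_injective h]
        · have hrel : Rel e f := ⟨heA, hn, h⟩
          have := hXr f hf
          rwa [hr2 e f hrel] at this
      · intro he
        exact ⟨heA, Or.inl ⟨e, he, rfl⟩⟩
    constructor
    · rintro (⟨h1, h2⟩ | ⟨h1, h2⟩)
      · left
        exact ⟨h1, fun h => h2 ((hYe h1).1 h)⟩
      · -- e ∈ X, e ∉ A₁ : so e ∈ A₂
        right
        have he2 : (Sum.inl e : σ ⊕ τ) ∈ A₂ := by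
          rcases hXD h1 with h | h
          · exact absurd h.1 h2
          · exact h.1
        obtain ⟨a, ha, hae⟩ := hφ.surjOn he2
        refine ⟨a, ⟨ha, Or.inr ⟨e, h1, hae, ?_⟩⟩, hae⟩
        intro ha2
        -- a ∈ A₁ ∩ A₂ then φ a = a, contradiction with φ a ∉ A₁
        obtain ⟨a', ha', haa'⟩ := hφ.surjOn ha2
        have h5 : φ a' = a' := hfix a' ha' (by rw [haa']; exact ha)
        have h6 : a' = a := by rw [← h5, haa']
        rw [h6] at h5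
        rw [hae] at h5
        rw [← h5] at ha
        exact h2 ha
    · rintro (⟨h1, h2⟩ | ⟨a, ha, hae⟩)
      · left
        exact ⟨h1, fun h => h2 ((hYe h1).2 h)⟩
      · by_cases heA : (Sum.inl e : σ ⊕ τ) ∈ A₁
        · -- then φ a = a
          have h5 : φ a = a := hfix a ha.1 (by rw [hae]; exact heA)
          rw [hae] at h5
          left
          refine ⟨heA, fun h => ?_⟩
          have h2 : (Sum.inl e : σ ⊕ τ) ∈ A₂ := by rw [← hae]; exact hφ.mapsTo ha.1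
          rcases hXD h with h' | h'
          · exact h'.2 h2
          · exact h'.2 heA
        · right
          refine ⟨?_, heA⟩
          rcases ha.2 with ⟨e', he', h⟩ | ⟨f, hf, h, hn⟩
          · -- a = inl e', e' ∈ X
            subst h
            have hn : (Sum.inl e' : σ ⊕ τ) ∉ A₂ := by
              rcases hXD he' with h' | h'
              · exact h'.2
              · exact absurd ha.1 h'.2
            have hrel : Rel e' e := ⟨ha.1, hn, hae⟩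
            have := hXr e' he'
            rwa [hr1 e' e hrel] at this
          · rw [hae] at h
            rwa [Sum.inl_injective h]

end Pool.Agent.H90.SBO
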