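import Pool.Agent.H90.SBO.Indep

/-! The version for sums. -/

set_option autoImplicit false

namespace Pool.Agent.H90.SBO

open Set

variable {σ : Type*}

/-- the points `1_A + 1_B` -/
def PtsS (FA FB : Set (Set σ)) : Set (σ → ℝ) :=
  {x | ∃ A ∈ FA, ∃ B ∈ FB, ∀ e, x e = ind A e + ind B e}

theorem ind_compl (A : Set σ) (e : σ) : ind Aᶜ e = 1 - ind A e := by
  classical
  unfold ind
  by_cases h : e ∈ A <;> simp [h]

theorem PtsS_eq (FA FB : Set (Set σ)) :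
    PtsS FA FB = (fun x : σ → ℝ => (1 : σ → ℝ) + x) '' Pts FA {A | Aᶜ ∈ FB} := by
  ext x
  constructor
  · rintro ⟨A, hA, B, hB, hx⟩
    refine ⟨x - 1, ⟨A, hA, Bᶜ, by simpa using hB, fun e => ?_⟩, by simp⟩
    rw [ind_compl]
    simp only [Pi.sub_apply, Pi.one_apply, hx]
    ring
  · rintro ⟨y, ⟨A, hA, B, hB, hy⟩, rfl⟩
    refine ⟨A, hA, Bᶜ, hB, fun e => ?_⟩
    rw [ind_compl]
    simp only [Pi.add_apply, Pi.one_apply, hy]
    ring

theorem conv_PtsS (FA FB : Set (Set σ)) (x : σ → ℝ) :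
    (1 + x ∈ convexHull ℝ (PtsS FA FB) ↔ x ∈ convexHull ℝ (Pts FA {A | Aᶜ ∈ FB})) := by
  have h := (AffineEquiv.constVAdd ℝ (σ → ℝ) (1 : σ → ℝ)).toAffineMap.image_convexHull
    (Pts FA {A | Aᶜ ∈ FB})
  have h2 : convexHull ℝ (PtsS FA FB) =
      (fun x : σ → ℝ => (1 : σ → ℝ) + x) '' convexHull ℝ (Pts FA {A | Aᶜ ∈ FB}) := by
    rw [PtsS_eq]
    exact h.symm
  rw [h2]
  constructor
  · rintro ⟨y, hy, hxy⟩
    have : y = x := add_left_cancel hxy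
    rwa [← this]
  · intro hx
    exact ⟨x, hx, rfl⟩

theorem ext_PtsS (FA FB : Set (Set σ)) (x : σ → ℝ)
    (hx : x ∈ Set.extremePoints ℝ (convexHull ℝ (Pts FA {A | Aᶜ ∈ FB}))) :
    1 + x ∈ Set.extremePoints ℝ (convexHull ℝ (PtsS FA FB)) := by
  rw [mem_extremePoints_iff_left] at hx ⊢
  refine ⟨(conv_PtsS FA FB x).2 hx.1, ?_⟩
  intro y hy z hz hyz
  obtain ⟨y', rfl⟩ : ∃ y', 1 + y' = y := ⟨y - 1, by abel⟩
  obtain ⟨z', rfl⟩ : ∃ z', 1 + z' = z := ⟨z - 1, by abel⟩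
  rw [conv_PtsS] at hy hz
  congr 1
  refine hx.2 y' hy z' hz ?_
  obtain ⟨a, b, ha, hb, hab, h⟩ := hyz
  refine ⟨a, b, ha, hb, hab, ?_⟩
  have h3 : a • (1 + y') + b • (1 + z') = (a + b) • (1 : σ → ℝ) + (a • y' + b • z') := by
    rw [smul_add, smul_add, add_smul]
    abel
  rw [h3, hab, one_smul] at h
  exact add_left_cancel h

variable [Fintype σ]

theorem main_sum {FA FB : Set (Set σ)} (hA : SE FA) (hB : SE FB)
    (h1 : (1 : σ → ℝ) ∈ convexHull ℝ (PtsS FA FB)) :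
    ∃ v : σ → ℝ, (∀ e, v e = 0 ∨ v e = 1 ∨ v e = 2) ∧
      v ∈ Set.extremePoints ℝ (convexHull ℝ (PtsS FA FB)) ∧
      2 - v ∈ Set.extremePoints ℝ (convexHull ℝ (PtsS FA FB)) := by
  have h0 : (0 : σ → ℝ) ∈ convexHull ℝ (Pts FA {A | Aᶜ ∈ FB}) := by
    rw [← conv_PtsS, add_zero]; exact h1
  obtain ⟨v, hv, hv1, hv2⟩ := (main_families hA hB.compl h0).2
  refine ⟨1 + v, ?_, ext_PtsS FA FB v hv1, ?_⟩
  · intro e
    rcases hv e with h | h | h
    · left; simp [h]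
    · right; left; simp [h]
    · right; right; simp [h]; norm_num
  · have h3 : (2 : σ → ℝ) - (1 + v) = 1 + -v := by
      funext e
      simp only [Pi.sub_apply, Pi.add_apply, Pi.one_apply, Pi.neg_apply, Pi.ofNat_apply]
      ring
    rw [h3]
    exact ext_PtsS FA FB (-v) hv2

end Pool.Agent.H90.SBO
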