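import Pool.Agent.H90.SBO.Rec

/-! Weights on the representations of a point of `conv {1_A - 1_B}`. -/

set_option autoImplicit false

namespace Pool.Agent.H90.SBO

open Set

variable {σ : Type*}

open Classical in
/-- indicator -/
noncomputable def ind (A : Set σ) (e : σ) : ℝ := if e ∈ A then 1 else 0

/-- the points `1_A - 1_B` -/
def Pts (FA FB : Set (Set σ)) : Set (σ → ℝ) :=
  {x | ∃ A ∈ FA, ∃ B ∈ FB, ∀ e, x e = ind A e - ind B e}

/-- value of a pair -/
noncomputable def val (i : Set σ × Set σ) (e : σ) : ℝ := ind i.1 e - ind i.2 e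

theorem val_cases (i : Set σ × Set σ) (e : σ) : val i e = -1 ∨ val i e = 0 ∨ val i e = 1 := by
  classical
  unfold val ind
  by_cases h1 : e ∈ i.1 <;> by_cases h2 : e ∈ i.2 <;> simp [h1, h2]

variable [Fintype σ]

open Classical in
/-- weights on pairs with given marginals -/
def Wt (FA FB : Set (Set σ)) (α β : σ → ℝ) : Set (Set σ × Set σ → ℝ) :=
  {l | (∀ i, 0 ≤ l i) ∧ (∀ i, ¬ (i.1 ∈ FA ∧ i.2 ∈ FB) → l i = 0) ∧ ∑ i, l i = 1 ∧
    (∀ e, ∑ i, l i * ind i.1 e = α e) ∧ (∀ e, ∑ i, l i * ind i.2 e = β e)}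

open Classical in
/-- potential -/
noncomputable def pot (l : Set σ × Set σ → ℝ) : ℝ := ∑ i, l i * ∑ e, (val i e) ^ 2

open Classical in
theorem exists_wt {FA FB : Set (Set σ)} {x : σ → ℝ} (hx : x ∈ convexHull ℝ (Pts FA FB)) :
    ∃ α β, (∀ e, x e = α e - β e) ∧ (Wt FA FB α β).Nonempty := by
  have h : convexHull ℝ (Pts FA FB) ⊆
      {x | ∃ α β, (∀ e, x e = α e - β e) ∧ (Wt FA FB α β).Nonempty} := by
    apply convexHull_min
    · rintro x ⟨A, hA, B, hB, hx⟩
      refine ⟨ind A, ind B, hx, Pi.single (A, B) 1, ?_, ?_, ?_, ?_, ?_⟩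
      · intro i
        by_cases h : i = (A, B)
        · subst h; simp
        · simp [Pi.single_eq_of_ne h]
      · intro i hi
        have h : i ≠ (A, B) := by rintro rfl; exact hi ⟨hA, hB⟩
        simp [Pi.single_eq_of_ne h]
      · simp
      · intro e
        simp [Pi.single_apply]
      · intro e
        simp [Pi.single_apply]
    · rintro x ⟨α, β, hx, l, hl1, hl2, hl3, hl4, hl5⟩ y ⟨α', β', hy, l', hl1', hl2', hl3', hl4', hl5'⟩
        a b ha hb hab
      refine ⟨fun e => a * α e + b * α' e, fun e => a * β e + b * β' e, ?_,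
        fun i => a * l i + b * l' i, ?_, ?_, ?_, ?_, ?_⟩
      · intro e
        simp only [Pi.add_apply, Pi.smul_apply, smul_eq_mul, hx, hy]
        ring
      · intro i
        have := hl1 i
        have := hl1' i
        positivity
      · intro i hi
        simp [hl2 i hi, hl2' i hi]
      · rw [Finset.sum_add_distrib, ← Finset.mul_sum, ← Finset.mul_sum, hl3, hl3']
        linarith
      · intro e
        simp only [add_mul, mul_assoc]
        rw [Finset.sum_add_distrib, ← Finset.mul_sum, ← Finset.mul_sum, hl4, hl4']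
      · intro e
        simp only [add_mul, mul_assoc]
        rw [Finset.sum_add_distrib, ← Finset.mul_sum, ← Finset.mul_sum, hl5, hl5']
  exact h hx

open Classical in
theorem wt_mem {FA FB : Set (Set σ)} {α β : σ → ℝ} {l : Set σ × Set σ → ℝ}
    (hl : l ∈ Wt FA FB α β) {i : Set σ × Set σ} (hi : 0 < l i) : i.1 ∈ FA ∧ i.2 ∈ FB := by
  by_contra h
  rw [hl.2.1 i h] at hi
  exact lt_irrefl _ hi

open Classical in
theorem sum_val {FA FB : Set (Set σ)} {α β : σ → ℝ} {l : Set σ × Set σ → ℝ}
    (hl : l ∈ Wt FA FB α β) (e : σ) : ∑ i, l i * val i e = α e - β e := by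
  rw [← hl.2.2.2.1 e, ← hl.2.2.2.2 e, ← Finset.sum_sub_distrib]
  apply Finset.sum_congr rfl
  intro i _
  unfold val
  ring

open Classical in
/-- an opposite pair -/
theorem opp {FA FB : Set (Set σ)} {α β : σ → ℝ} {l : Set σ × Set σ → ℝ}
    (hl : l ∈ Wt FA FB α β) {x : σ → ℝ} (hx : ∀ e, x e = α e - β e) {e : σ}
    (hxe : x e = -1 ∨ x e = 0 ∨ x e = 1) {i : Set σ × Set σ} (hi : 0 < l i) (hne : val i e ≠ x e) :
    x e = 0 ∧ ∃ j, 0 < l j ∧ ((val i e = 1 ∧ val j e = -1) ∨ (val i e = -1 ∧ val j e = 1)) := by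
  have hsum : ∑ j, l j * (val j e - x e) = 0 := by
    have h1 := sum_val hl e
    have h2 := hl.2.2.1
    simp only [mul_sub]
    rw [Finset.sum_sub_distrib, h1, ← Finset.sum_mul, h2, hx]
    ring
  -- if all the terms have a sign then they vanish
  have hpos : (∀ j, 0 ≤ l j * (val j e - x e)) → False := by
    intro h
    have h0 := (Finset.sum_eq_zero_iff_of_nonneg (fun j _ => h j)).1 hsum i (Finset.mem_univ i)
    rcases mul_eq_zero.1 h0 with h1 | h1
    · exact absurd h1 hi.ne'
    · exact hne (sub_eq_zero.1 h1)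
  have hneg : (∀ j, l j * (val j e - x e) ≤ 0) → False := by
    intro h
    have h0 := (Finset.sum_eq_zero_iff_of_nonpos (fun j _ => h j)).1 hsum i (Finset.mem_univ i)
    rcases mul_eq_zero.1 h0 with h1 | h1
    · exact absurd h1 hi.ne'
    · exact hne (sub_eq_zero.1 h1)
  rcases hxe with h | h | h
  · exfalso
    apply hpos
    intro j
    apply mul_nonneg (hl.1 j)
    rcases val_cases j e with h' | h' | h' <;> rw [h, h'] <;> norm_num
  · refine ⟨h, ?_⟩
    rcases val_cases i e with hi' | hi' | hi'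
    · by_contra hno
      apply hneg
      intro j
      rcases (hl.1 j).lt_or_eq with hj | hj
      · apply mul_nonpos_of_nonneg_of_nonpos (hl.1 j)
        rcases val_cases j e with h' | h' | h'
        · rw [h, h']; norm_num
        · rw [h, h']; norm_num
        · exact absurd ⟨j, hj, Or.inr ⟨hi', h'⟩⟩ hno
      · rw [← hj]; simp
    · exact absurd (hi'.trans h.symm) hne
    · by_contra hno
      apply hpos
      intro j
      rcases (hl.1 j).lt_or_eq with hj | hj
      · apply mul_nonneg (hl.1 j)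
        rcases val_cases j e with h' | h' | h'
        · exact absurd ⟨j, hj, Or.inl ⟨hi', h'⟩⟩ hno
        · rw [h, h']; norm_num
        · rw [h, h']; norm_num
      · rw [← hj]; simp
  · exfalso
    apply hneg
    intro j
    apply mul_nonpos_of_nonneg_of_nonpos (hl.1 j)
    rcases val_cases j e with h' | h' | h' <;> rw [h, h'] <;> norm_num

open Classical in
theorem wt_compact (FA FB : Set (Set σ)) (α β : σ → ℝ) : IsCompact (Wt FA FB α β) := by
  have hc : IsClosed {l : Set σ × Set σ → ℝ | (∀ i, ¬ (i.1 ∈ FA ∧ i.2 ∈ FB) → l i = 0) ∧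
    (∀ e, ∑ i, l i * ind i.1 e = α e) ∧ (∀ e, ∑ i, l i * ind i.2 e = β e)} := by
    simp only [Set.ofPred_and, Set.ofPred_forall]
    refine IsClosed.inter ?_ (IsClosed.inter ?_ ?_)
    · refine isClosed_iInter fun i => isClosed_iInter fun _ => ?_
      exact isClosed_eq (continuous_apply i) continuous_const
    · refine isClosed_iInter fun e => ?_
      exact isClosed_eq (by fun_prop) continuous_const
    · refine isClosed_iInter fun e => ?_
      exact isClosed_eq (by fun_prop) continuous_const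
  have h := (isCompact_stdSimplex ℝ (Set σ × Set σ)).inter_right hc
  convert h using 1
  ext l
  simp only [Wt, stdSimplex, Set.mem_inter_iff, Set.mem_setOf_eq]
  tauto

end Pool.Agent.H90.SBO
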